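import Mathlib
import Pool.Agent.H432.TC.AbcS
import Pool.Agent.H432.AC.Main

/-!
The weak abc inequality and the weak truncated inequality on rational curves of bounded degree.
-/

set_option autoImplicit false
set_option linter.unusedSectionVars false
set_option linter.unusedVariables false

namespace Pool.Agent.H432.WK

open NumberField IsDedekindDomain Height Module MvPolynomial Pool.Agent.N750 Pool.Agent.H432.RC
open Pool.Agent.H432.TC (DM DM_smul RC0 exists_E fixed_r ev_ht_le)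
open Pool.Agent.Q290.NF (wt wt_mono wt_or_le wt_nonneg)
open Pool.Agent.Results.MP_4d5ce1_nt.ThinSetsSuffice (Meet meet_fin)

/-- the weak abc inequality over `E` with the slope `κ` -/
def WA (E : Type) [Field E] [NumberField E] (κ : ℝ) : Prop :=
  ∀ x : E, x ≠ 0 → x ≠ 1 → logHeight₁ x ≤ κ * (wt (fun v : HeightOneSpectrum (𝓞 E) =>
    v.valuation E x < 1) + wt (fun v : HeightOneSpectrum (𝓞 E) => v.valuation E x⁻¹ < 1) +
    wt (fun v : HeightOneSpectrum (𝓞 E) => v.valuation E (x - 1) < 1) + finrank ℚ E)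

/-- the weak inequality for finite sets of at least three points -/
def PW (E : Type) [Field E] [NumberField E] (κ : ℝ) : Prop :=
  ∀ (S' : Finset (HeightOneSpectrum (𝓞 E))) (ν : ℕ) (b : Fin ν → E), Function.Injective b →
    3 ≤ ν → ∃ C : ℝ, ∀ T : E, (∀ a, T ≠ b a) → logHeight ![T, 1] ≤
      κ * (∑ a, wt (fun v => v ∉ S' ∧ Meet ![b a, 1] ![T, 1] v)) + C

theorem mob {E : Type} [Field E] [NumberField E] {v : HeightOneSpectrum (𝓞 E)} {T p q c : E}
    (hc : v.valuation E c = 1) (hpq : v.valuation E (p - q) = 1) (hTq : T ≠ q)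
    (h : v.valuation E (c * ((T - p) / (T - q))) < 1) : v.valuation E (T - p) < 1 := by
  have hq : v.valuation E (T - q) ≠ 0 := (Valuation.ne_zero_iff _).2 (sub_ne_zero.2 hTq)
  rw [map_mul, hc, one_mul, map_div₀, div_lt_one₀ (zero_lt_iff.2 hq)] at h
  have h1 : p - q = (T - q) - (T - p) := by ring
  have h2 : v.valuation E (p - q) = v.valuation E (T - q) := by
    rw [h1]
    exact Valuation.map_sub_eq_of_lt_left _ h
  rw [← h2, hpq] at h
  exact h

theorem ne_one_fin {E : Type} [Field E] [NumberField E] {x : E} (hx : x ≠ 0) :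
    {v : HeightOneSpectrum (𝓞 E) | v.valuation E x ≠ 1}.Finite := by
  refine ((Pool.Agent.Q290.NF.fin_pole x).union (Pool.Agent.Q290.NF.fin_pole x⁻¹)).subset ?_
  intro v hv
  rcases lt_or_gt_of_ne hv with h | h
  · right
    show 1 < v.valuation E x⁻¹
    rw [map_inv₀]
    exact (one_lt_inv₀ (zero_lt_iff.2 ((Valuation.ne_zero_iff _).2 hx))).2 h
  · left
    exact h

theorem pw_of {E : Type} [Field E] [NumberField E] {κ : ℝ} (hκ : 0 ≤ κ) (h : WA E κ) : PW E κ := by
  classical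
  intro S' ν b hb hν
  obtain ⟨i0, hi0⟩ : ∃ i : Fin ν, i = ⟨0, by omega⟩ := ⟨_, rfl⟩
  obtain ⟨i1, hi1⟩ : ∃ i : Fin ν, i = ⟨1, by omega⟩ := ⟨_, rfl⟩
  obtain ⟨i2, hi2⟩ : ∃ i : Fin ν, i = ⟨2, by omega⟩ := ⟨_, rfl⟩
  have n01 : i0 ≠ i1 := by rw [hi0, hi1]; simp
  have n02 : i0 ≠ i2 := by rw [hi0, hi2]; simp
  have n12 : i1 ≠ i2 := by rw [hi1, hi2]; simp
  have d01 : b i0 - b i1 ≠ 0 := sub_ne_zero.2 fun h => n01 (hb h)
  have d02 : b i2 - b i0 ≠ 0 := sub_ne_zero.2 fun h => n02 (hb h.symm)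
  have d12 : b i2 - b i1 ≠ 0 := sub_ne_zero.2 fun h => n12 (hb h.symm)
  set μ : E := (b i2 - b i1) / (b i2 - b i0) with hμ
  set ρ : E := (b i0 - b i1) / (b i2 - b i0) with hρ
  have hμ0 : μ ≠ 0 := div_ne_zero d12 d02
  have hρ0 : ρ ≠ 0 := div_ne_zero d01 d02
  set Bad : Set (HeightOneSpectrum (𝓞 E)) := {v | v.valuation E μ ≠ 1} ∪
    {v | v.valuation E ρ ≠ 1} ∪ {v | v.valuation E (b i0 - b i1) ≠ 1} ∪
    {v | v.valuation E (b i2 - b i1) ≠ 1} ∪ (S' : Set (HeightOneSpectrum (𝓞 E))) with hBad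
  have hBadf : Bad.Finite := ((((ne_one_fin hμ0).union (ne_one_fin hρ0)).union
    (ne_one_fin d01)).union (ne_one_fin d12)).union S'.finite_toSet
  set A : Fin 2 × Fin 2 → E := fun x => ![![b i1, -(μ * b i0)], ![1, -μ]] x.1 x.2 with hA
  set C1 : ℝ := Height.totalWeight E * Real.log (Nat.card (Fin 2)) + Height.logHeight A with hC1
  refine ⟨κ * (3 * wt (fun v => v ∈ Bad) + finrank ℚ E) + C1, fun T hT => ?_⟩
  have t0 : T - b i0 ≠ 0 := sub_ne_zero.2 (hT i0)
  have t1 : T - b i1 ≠ 0 := sub_ne_zero.2 (hT i1)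
  have t2 : T - b i2 ≠ 0 := sub_ne_zero.2 (hT i2)
  set x : E := μ * ((T - b i0) / (T - b i1)) with hx
  have hx0 : x ≠ 0 := mul_ne_zero hμ0 (div_ne_zero t0 t1)
  have hx1 : x - 1 = ρ * ((T - b i2) / (T - b i1)) := by
    rw [hx, hμ, hρ]
    field_simp
    ring
  have hxi : x⁻¹ = μ⁻¹ * ((T - b i1) / (T - b i0)) := by
    rw [hx, mul_inv, inv_div (T - b i0) (T - b i1)]
  have hx1' : x ≠ 1 := by
    intro h1
    have h2 : x - 1 ≠ 0 := by
      rw [hx1]
      exact mul_ne_zero hρ0 (div_ne_zero t2 t1)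
    exact h2 (sub_eq_zero.2 h1)
  have h1 := h x hx0 hx1'
  have hxm : x - μ = μ * (b i1 - b i0) / (T - b i1) := by
    rw [hx]
    field_simp
    ring
  have hxm0 : x - μ ≠ 0 := by
    rw [hxm]
    refine div_ne_zero (mul_ne_zero hμ0 ?_) t1
    intro h0
    apply d01
    linear_combination -h0
  have hTx : T * (x - μ) = b i1 * x - μ * b i0 := by
    rw [hxm, hx]
    field_simp
    ring
  have h2 : logHeight ![T, 1] ≤ logHeight₁ x + C1 := by
    have e1 := Height.logHeight_linearMap_apply_le A (![x, 1] : Fin 2 → E)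
    have e2 : (fun j => ∑ i, A (j, i) * (![x, 1] : Fin 2 → E) i) = (x - μ) • ![T, 1] := by
      funext j
      rw [Fin.sum_univ_two, Pi.smul_apply, smul_eq_mul]
      fin_cases j
      · show b i1 * x + -(μ * b i0) * 1 = (x - μ) * T
        rw [mul_comm (x - μ) T, hTx]
        ring
      · show 1 * x + -μ * 1 = (x - μ) * 1
        ring
    rw [e2, Height.logHeight_smul_eq_logHeight _ hxm0] at e1
    rw [logHeight₁_eq_logHeight, hC1]
    linarith
  have hmeet : ∀ i : Fin ν, {v | v ∉ S' ∧ Meet ![b i, 1] ![T, 1] v}.Finite := by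
    intro i
    refine (meet_fin (a := ![b i, 1]) (x := ![T, 1]) ?_).subset fun v hv => hv.2
    simp only [Matrix.cons_val_zero, Matrix.cons_val_one, mul_one, one_mul]
    exact sub_ne_zero.2 (hT i)
  have key : ∀ (i : Fin ν) (P : HeightOneSpectrum (𝓞 E) → Prop),
      (∀ v, v ∉ Bad → P v → v.valuation E (T - b i) < 1) →
      wt P ≤ wt (fun v => v ∉ S' ∧ Meet ![b i, 1] ![T, 1] v) + wt (fun v => v ∈ Bad) := by
    intro i P hP
    refine (wt_mono (Q := fun v => (v ∉ S' ∧ Meet ![b i, 1] ![T, 1] v) ∨ v ∈ Bad)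
      ((hmeet i).union hBadf) fun v hv => ?_).trans (wt_or_le (hmeet i) hBadf)
    by_cases hvB : v ∈ Bad
    · exact Or.inr hvB
    · refine Or.inl ⟨fun hvS => hvB (Or.inr hvS), ?_⟩
      unfold Meet
      simp only [Matrix.cons_val_zero, Matrix.cons_val_one, mul_one, one_mul, map_one]
      refine lt_of_lt_of_le (hP v hvB hv) ?_
      exact one_le_mul (le_max_right _ _) (le_max_right _ _)
  have good : ∀ v, v ∉ Bad → v.valuation E μ = 1 ∧ v.valuation E ρ = 1 ∧
      v.valuation E (b i0 - b i1) = 1 ∧ v.valuation E (b i2 - b i1) = 1 := by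
    intro v hv
    rw [hBad] at hv
    simp only [Set.mem_union, not_or, Set.mem_ofPred_eq, not_not] at hv
    exact ⟨hv.1.1.1.1, hv.1.1.1.2, hv.1.1.2, hv.1.2⟩
  have k0 := key i0 (fun v => v.valuation E x < 1) fun v hv hlt => by
    obtain ⟨g1, g2, g3, g4⟩ := good v hv
    exact mob g1 g3 (hT i1) hlt
  have k1 := key i1 (fun v => v.valuation E x⁻¹ < 1) fun v hv hlt => by
    obtain ⟨g1, g2, g3, g4⟩ := good v hv
    have hlt' : v.valuation E x⁻¹ < 1 := hlt
    rw [hxi] at hlt'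
    refine mob (c := μ⁻¹) (q := b i0) (by rw [map_inv₀, g1, inv_one]) ?_ (hT i0) hlt'
    rw [← g3, ← Valuation.map_neg, neg_sub]
  have k2 := key i2 (fun v => v.valuation E (x - 1) < 1) fun v hv hlt => by
    obtain ⟨g1, g2, g3, g4⟩ := good v hv
    have hlt' : v.valuation E (x - 1) < 1 := hlt
    rw [hx1] at hlt'
    exact mob g2 g4 (hT i1) hlt'
  have h3 : wt (fun v => v ∉ S' ∧ Meet ![b i0, 1] ![T, 1] v) +
      wt (fun v => v ∉ S' ∧ Meet ![b i1, 1] ![T, 1] v) +
      wt (fun v => v ∉ S' ∧ Meet ![b i2, 1] ![T, 1] v) ≤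
      ∑ a, wt (fun v => v ∉ S' ∧ Meet ![b a, 1] ![T, 1] v) := by
    have e1 := Finset.sum_le_univ_sum_of_nonneg (s := {i0, i1, i2})
      (f := fun a => wt (fun v => v ∉ S' ∧ Meet ![b a, 1] ![T, 1] v)) fun a => wt_nonneg _
    rw [Finset.sum_insert (by simp [n01, n02]), Finset.sum_insert (by simp [n12]),
      Finset.sum_singleton] at e1
    linarith
  have h4 : wt (fun v : HeightOneSpectrum (𝓞 E) => v.valuation E x < 1) +
      wt (fun v : HeightOneSpectrum (𝓞 E) => v.valuation E x⁻¹ < 1) +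
      wt (fun v : HeightOneSpectrum (𝓞 E) => v.valuation E (x - 1) < 1) + finrank ℚ E ≤
      ∑ a, wt (fun v => v ∉ S' ∧ Meet ![b a, 1] ![T, 1] v) +
        (3 * wt (fun v => v ∈ Bad) + finrank ℚ E) := by
    linarith
  have h5 := mul_le_mul_of_nonneg_left h4 hκ
  rw [mul_add] at h5
  linarith

variable {M g q w n' d : ℕ}

/-- the left side of the inequality -/
noncomputable def LH {k L : Type} [Field k] [Field L] [NumberField L] [Algebra k L]
    (F : Fin q → Fin w → MvPolynomial (Fin M) k) (δ : Fin q → ℕ) (x : Fin M → L)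
    (A : Fin M → Fin (n' + 2) → L) : ℝ :=
  logHeight (mv A) - (n' + 2) * logHeight x +
    ∑ i, ((δ i : ℝ) * logHeight x - logHeight (fun j => aeval x (F i j)))

/-- **the weak inequality for a fixed curve** -/
theorem curve_wk {k : Type} [Field k] [NumberField k] {G : Fin g → MvPolynomial (Fin M) k}
    {e : Fin g → ℕ} (hG : ∀ i, (G i).IsHomogeneous (e i))
    (hsm : Sm (n' + 1) G) {F : Fin q → Fin w → MvPolynomial (Fin M) k} {δ : Fin q → ℕ}
    (hF : ∀ i j, (F i j).IsHomogeneous (δ i)) (hd0 : 1 ≤ d)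
    {Φ : MvPolynomial (Fin M) k} {mΦ : ℕ} (hΦh : Φ.IsHomogeneous mΦ)
    {L E : Type} [Field L] [NumberField L] [Algebra k L] [Field E] [NumberField E] [Algebra k E]
    [Algebra L E] [IsScalarTower k L E] {κ : ℝ} (hκ : 0 ≤ κ) (hall : PW E κ)
    (hgeo : GeoP E n' G F d (∑ i, δ i * d) Φ) (c : Fin M → Fin (d + 1) → L)
    (hc0 : RC0 G c) (hc : CurveOK G F fun l m => algebraMap L E (c l m))
    (hz : ∃ z, aeval (pc c z) Φ ≠ 0) {Cx Cy : ℝ} (hCx : 0 ≤ Cx)
    (hcrude : ∀ x : Fin M → L, x ≠ 0 → (∀ i, aeval x (G i) = 0) →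
      ∀ A, IsTB (p := n' + 2) G x A → LH F δ x A ≤ Cx * logHeight x + Cy)
    (S : Finset (HeightOneSpectrum (𝓞 L))) :
    ∃ C : ℝ, ∀ s : Fin 2 → L, s ≠ 0 → (∀ i, ∃ j, aeval (pc c s) (F i j) ≠ 0) →
      ∀ A, IsTB (p := n' + 2) G (pc c s) A →
      LH F δ (pc c s) A ≤ (Cx * d * κ) * wt (fun v => v ∉ S ∧ DM F δ (pc c s) v) + C := by
  classical
  have hkey : ∀ r : ℕ, ∃ C : ℝ, (∀ i, ∃ j, aeval (pc c ![(r : L), 1]) (F i j) ≠ 0) →
      ∀ T : L, (∀ i, ∃ j, aeval (pc c ![(r : L) * T + 1, T]) (F i j) ≠ 0) →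
      ∀ A, IsTB (p := n' + 2) G (pc c ![(r : L) * T + 1, T]) A →
      LH F δ (pc c ![(r : L) * T + 1, T]) A ≤
        (Cx * d * κ) * wt (fun v => v ∉ S ∧ DM F δ (pc c ![(r : L) * T + 1, T]) v) + C := by
    intro r
    by_cases hr : ∀ i, ∃ j, aeval (pc c ![(r : L), 1]) (F i j) ≠ 0
    swap
    · exact ⟨0, fun h => absurd h hr⟩
    obtain ⟨ν, b, hb, ⟨C1, hC1⟩, hcnt⟩ := fixed_r (E := E) hsm hF hd0 hΦh hgeo c hc hz r hr
    rcases Nat.lt_or_ge ν 3 with hν | hν
    · refine ⟨C1, fun _ T hT A hA => ?_⟩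
      obtain ⟨hTb, h1, h2⟩ := hC1 T hT
      have h3 := h2 A hA
      have h4 : 0 ≤ logHeight (![1, T] : Fin 2 → L) := logHeight_nonneg _
      have h5 : ((ν : ℝ) - 2) ≤ 0 := by
        have : (ν : ℝ) ≤ 2 := by exact_mod_cast Nat.lt_succ_iff.1 hν
        linarith
      have h6 : ((ν : ℝ) - 2) * logHeight (![1, T] : Fin 2 → L) ≤ 0 :=
        mul_nonpos_of_nonpos_of_nonneg h5 h4
      have h7 := wt_nonneg (fun v => v ∉ S ∧ DM F δ (pc c ![(r : L) * T + 1, T]) v)
      have h8 : 0 ≤ (Cx * d * κ) * wt (fun v => v ∉ S ∧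
          DM F δ (pc c ![(r : L) * T + 1, T]) v) := by positivity
      unfold LH
      linarith
    · obtain ⟨S', C2, hC2⟩ := hcnt S
      obtain ⟨C3, hC3⟩ := hall S' ν b hb hν
      obtain ⟨C5, hC5⟩ := ev_ht_le (fun l => cpol (r : L) c l) d fun l => cpol_deg _ c l
      have hfL : (0 : ℝ) < finrank L E := by exact_mod_cast finrank_pos
      refine ⟨Cx * (d * ((κ * C2 + C3) / finrank L E) + C5) + Cy, fun _ T hT A hA => ?_⟩
      obtain ⟨hTb, h1, h2⟩ := hC1 T hT
      have h3 := hC3 (algebraMap L E T) hTb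
      have e12 : logHeight (![algebraMap L E T, 1] : Fin 2 → E) =
          finrank L E * logHeight (![1, T] : Fin 2 → L) := by
        rw [Pool.Agent.H432.TC.swap_ht]
        have h1 : (![1, algebraMap L E T] : Fin 2 → E) = fun i => algebraMap L E (![1, T] i) := by
          funext i
          fin_cases i
          · exact (map_one _).symm
          · rfl
        rw [h1]
        exact Pool.Agent.Helper259.HtExt.logHeight_ext (K := L) (L := E) _
      rw [e12] at h3
      have h4 := hC2 T hT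
      have hne : (![(r : L) * T + 1, T] : Fin 2 → L) ≠ 0 := by
        intro h
        have a0 : (r : L) * T + 1 = 0 := congrFun h 0
        have a1 : T = 0 := congrFun h 1
        rw [a1, mul_zero, zero_add] at a0
        exact one_ne_zero a0
      have hx0 : pc c ![(r : L) * T + 1, T] ≠ 0 := hc0.nz L _ hne
      have hcp : (fun l => (cpol (r : L) c l).eval T) = pc c ![(r : L) * T + 1, T] := by
        funext l
        exact cpol_eval _ _ _ _
      have h5 := hC5 T (by rw [hcp]; exact hx0)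
      rw [hcp] at h5
      have h6 := hcrude _ hx0 (fun i => hc0.onX L _ i) A hA
      set H := logHeight (![1, T] : Fin 2 → L) with hH
      set W := wt (fun v => v ∉ S ∧ DM F δ (pc c ![(r : L) * T + 1, T]) v) with hW
      set hx := logHeight (pc c ![(r : L) * T + 1, T]) with hhx
      have h7 : H ≤ κ * W + (κ * C2 + C3) / finrank L E := by
        have e1 : finrank L E * H ≤ κ * (finrank L E * W + C2) + C3 := by
          have := mul_le_mul_of_nonneg_left h4 hκ
          linarith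
        have e2 : H = (finrank L E * H) / finrank L E := by field_simp
        rw [e2, div_le_iff₀ hfL]
        have e3 : (κ * W + (κ * C2 + C3) / finrank L E) * finrank L E =
            κ * (finrank L E * W + C2) + C3 := by
          field_simp
          ring
        rw [e3]
        exact e1
      have hd1 : (0 : ℝ) ≤ d := Nat.cast_nonneg _
      have h8 : hx ≤ d * (κ * W + (κ * C2 + C3) / finrank L E) + C5 := by
        have := mul_le_mul_of_nonneg_left h7 hd1
        linarith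
      have h9 := mul_le_mul_of_nonneg_left h8 hCx
      calc LH F δ (pc c ![(r : L) * T + 1, T]) A ≤ Cx * hx + Cy := h6
        _ ≤ Cx * (d * (κ * W + (κ * C2 + C3) / finrank L E) + C5) + Cy := by linarith
        _ = _ := by ring
  choose C hC using hkey
  refine ⟨∑ r ∈ Finset.range (∑ i, δ i * d + 2), |C r|, fun s hs hsF A hA => ?_⟩
  obtain ⟨r, hr1, hr2⟩ := exists_r c s hs F δ hF hsF
  set a : L := s 0 - (r.1 : L) * s 1 with ha
  set T : L := s 1 / a with hT
  have hsy : pc c s = fun l => a ^ d * pc c ![(r.1 : L) * T + 1, T] l := by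
    rw [← pc_smul]
    congr 1
    funext x
    fin_cases x
    · show s 0 = a * ((r.1 : L) * T + 1)
      rw [hT]
      field_simp
      rw [ha]
      ring
    · show s 1 = a * T
      rw [hT]
      field_simp
  have had : a ^ d ≠ 0 := pow_ne_zero _ hr1
  have hyF : ∀ i, ∃ j, aeval (pc c ![(r.1 : L) * T + 1, T]) (F i j) ≠ 0 := by
    intro i
    obtain ⟨j, hj⟩ := hsF i
    refine ⟨j, fun h => hj ?_⟩
    rw [hsy, RC.aeval_hom (hF i j), h, mul_zero]
  have hAy : IsTB G (pc c ![(r.1 : L) * T + 1, T]) A := by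
    refine ⟨hA.1, fun cc => ?_⟩
    have e1 := hA.2 cc
    rw [hsy, TS_smul hG _ had] at e1
    exact e1
  have h1 := hC r.1 hr2 T hyF A hAy
  have e1 : logHeight (pc c s) = logHeight (pc c ![(r.1 : L) * T + 1, T]) := by
    rw [hsy]
    exact logHeight_smul_eq_logHeight (pc c ![(r.1 : L) * T + 1, T]) had
  have e2 : ∀ i, logHeight (fun j => aeval (pc c s) (F i j)) =
      logHeight (fun j => aeval (pc c ![(r.1 : L) * T + 1, T]) (F i j)) := by
    intro i
    have h2 : (fun j => aeval (pc c s) (F i j)) =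
        (a ^ d) ^ δ i • fun j => aeval (pc c ![(r.1 : L) * T + 1, T]) (F i j) := by
      funext j
      rw [hsy, RC.aeval_hom (hF i j)]
      rfl
    rw [h2]
    exact logHeight_smul_eq_logHeight _ (pow_ne_zero _ had)
  have e3 : (fun v => v ∉ S ∧ DM F δ (pc c s) v) =
      fun v => v ∉ S ∧ DM F δ (pc c ![(r.1 : L) * T + 1, T]) v := by
    funext v
    rw [hsy, DM_smul hF _ had]
  have e4 : LH F δ (pc c s) A = LH F δ (pc c ![(r.1 : L) * T + 1, T]) A := by
    unfold LH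
    rw [e1]
    simp only [e2]
  rw [e4, e3]
  have h4 : C r.1 ≤ ∑ r ∈ Finset.range (∑ i, δ i * d + 2), |C r| :=
    (le_abs_self _).trans (Finset.single_le_sum (f := fun r => |C r|)
      (fun _ _ => abs_nonneg _) (Finset.mem_range.2 r.2))
  linarith

/-- **the weak inequality on the rational curves of bounded degree** -/
theorem main_wk {k : Type} [Field k] [NumberField k]
    (G : Fin g → MvPolynomial (Fin M) k) (e : Fin g → ℕ)
    (hG : ∀ i, (G i).IsHomogeneous (e i)) (hI : (Ideal.span (Set.range G)).IsPrime)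
    (hsm : Sm (n' + 1) G) (F : Fin q → Fin w → MvPolynomial (Fin M) k) (δ : Fin q → ℕ)
    (hF : ∀ i j, (F i j).IsHomogeneous (δ i)) (hnc : NCD G F) (D : ℕ) :
    ∃ (mΦ : ℕ) (Φ : MvPolynomial (Fin M) k) (Cx : ℝ), Φ.IsHomogeneous mΦ ∧
      Φ ∉ Ideal.span (Set.range G) ∧ 0 ≤ Cx ∧
    ∀ (L : Type) [Field L] [NumberField L] [Algebra k L],
    ∀ (E : Type) [Field E] [NumberField E] [Algebra k E] [Algebra L E] [IsScalarTower k L E],
    ∀ κ : ℝ, 0 ≤ κ → WA E κ →
    ∀ d ≤ D, ∀ (c : Fin M → Fin (d + 1) → L), RC0 G c →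
      CurveOK G F (fun l m => algebraMap L E (c l m)) → (∃ z, aeval (pc c z) Φ ≠ 0) →
    ∀ (S : Finset (HeightOneSpectrum (𝓞 L))),
    ∃ C : ℝ, ∀ s : Fin 2 → L, s ≠ 0 → (∀ i, ∃ j, aeval (pc c s) (F i j) ≠ 0) →
      ∀ A, IsTB (p := n' + 2) G (pc c s) A →
      LH F δ (pc c s) A ≤ (Cx * κ) * wt (fun v => v ∉ S ∧ DM F δ (pc c s) v) + C := by
  classical
  have hgeo : ∀ d : ℕ, ∃ (mΦ : ℕ) (Φ : MvPolynomial (Fin M) k), Φ.IsHomogeneous mΦ ∧
      Φ ∉ Ideal.span (Set.range G) ∧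
      (1 ≤ d → GeoP (AlgebraicClosure k) n' G F d (∑ i, δ i * d) Φ) := by
    intro d
    by_cases hd : 1 ≤ d
    · obtain ⟨m, Φ, h1, h2, h3⟩ := exists_geoP (K := AlgebraicClosure k) G e hG hI hsm F δ hF hnc
        d (∑ i, δ i * d) hd
      exact ⟨m, Φ, h1, h2, fun _ => h3⟩
    · refine ⟨0, 1, MvPolynomial.isHomogeneous_one _ _, ?_, fun h => absurd h hd⟩
      intro h
      exact hI.ne_top ((Ideal.eq_top_iff_one _).2 h)
  choose m Φ h1 h2 h3 using hgeo
  obtain ⟨C4, hC4, hcrude⟩ := Pool.Agent.H432.AC.lhs_crude hG hsm F δ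
  have hCx0 : 0 ≤ C4 + ∑ i, (δ i : ℝ) := by
    have : 0 ≤ ∑ i, (δ i : ℝ) := Finset.sum_nonneg fun i _ => Nat.cast_nonneg _
    linarith
  refine ⟨∑ d ∈ Finset.range (D + 1), m d, ∏ d ∈ Finset.range (D + 1), Φ d,
    (C4 + ∑ i, (δ i : ℝ)) * D,
    MvPolynomial.IsHomogeneous.prod _ _ _ fun d _ => h1 d, ?_, by positivity, ?_⟩
  · intro h
    rw [hI.prod_mem_iff] at h
    obtain ⟨d, -, hd⟩ := h
    exact h2 d hd
  intro L _ _ _ E _ _ _ _ _ κ hκ hWA d hd c hc hok hz S
  rcases Nat.eq_zero_or_pos d with rfl | hd0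
  · -- constant curves
    have hconst : ∀ z : Fin 2 → L, pc c z = pc c ![1, 1] := by
      intro z
      funext l
      unfold pc
      refine Finset.sum_congr rfl fun m _ => ?_
      have hm0 : m.1 = 0 := by
        have := m.2
        omega
      rw [hm0]
      simp
    set x := pc c ![1, 1] with hx
    refine ⟨(C4 + ∑ i, (δ i : ℝ)) * logHeight x + finrank k L * C4, fun s hs hsF A hA => ?_⟩
    have hx0 : pc c s ≠ 0 := hc.nz L s hs
    have e2 := hcrude L (pc c s) hx0 (fun i => hc.onX L s i) A hA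
    rw [hconst s] at e2 ⊢
    have e3 := wt_nonneg (fun v => v ∉ S ∧ DM F δ x v)
    have e4 : 0 ≤ (C4 + ∑ i, (δ i : ℝ)) * D * κ * wt (fun v => v ∉ S ∧ DM F δ x v) := by
      positivity
    have e5 : LH F δ x A ≤ (C4 + ∑ i, (δ i : ℝ)) * logHeight x + finrank k L * C4 := e2
    linarith
  · let _ : Algebra.IsAlgebraic k E := Algebra.IsAlgebraic.of_finite k E
    have hemb : Nonempty (E →ₐ[k] AlgebraicClosure k) := ⟨IsAlgClosed.lift⟩
    obtain ⟨C, hC⟩ := curve_wk hG hsm hF hd0 (h1 d) hκ (pw_of hκ hWA)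
      ((h3 d hd0).descend hemb.some) c hc hok (by
        obtain ⟨z, hz⟩ := hz
        refine ⟨z, fun h => hz ?_⟩
        rw [map_prod]
        exact Finset.prod_eq_zero (Finset.mem_range.2 (Nat.lt_succ_of_le hd)) h)
      (Cx := C4 + ∑ i, (δ i : ℝ)) (Cy := finrank k L * C4) hCx0
      (fun x hx hxG A hA => hcrude L x hx hxG A hA) S
    refine ⟨C, fun s hs hsF A hA => (hC s hs hsF A hA).trans ?_⟩
    have e3 := wt_nonneg (fun v => v ∉ S ∧ DM F δ (pc c s) v)
    have hdD : (d : ℝ) ≤ D := by exact_mod_cast hd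
    have e4 : (C4 + ∑ i, (δ i : ℝ)) * d * κ ≤ (C4 + ∑ i, (δ i : ℝ)) * D * κ :=
      mul_le_mul_of_nonneg_right (mul_le_mul_of_nonneg_left hdD hCx0) hκ
    have e5 := mul_le_mul_of_nonneg_right e4 e3
    linarith

end Pool.Agent.H432.WK
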